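import Pool.Agent.X264.BC.Main

/-!
# Baum-Connes with commutative coefficients: reduction to `SL_n(ℝ)` and compact metrizable spaces
-/

set_option autoImplicit false

open Pool.Agent.X264.BC

namespace Pool.Agent.Results.MP_aa9b81_an.SpecialLinearGroups

universe u

/-- **Special linear groups suffice.** Let `I` be an infinite set of natural numbers. The Baum-Connes
assembly map with coefficients `C₀(X)` is an isomorphism for all connected linear Lie groups `G` and all
locally compact `G`-spaces `X` if and only if it is so for the groups `SL_n(ℝ)`, `n ∈ I`, and the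
compact metrizable spaces. -/
theorem result (T : Theory.{u}) (hT : T.IsKnown) (I : Set ℕ) (hI : I.Infinite) :
    (∀ G, T.Linear G → ∀ X, T.Iso G X) ↔
      ∀ n, n ∈ I → 0 < n → ∀ X, T.Compact (T.SL n) X → T.Metrizable (T.SL n) X →
        T.Iso (T.SL n) X :=
  Theory.main hT I hI

end Pool.Agent.Results.MP_aa9b81_an.SpecialLinearGroups
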